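import Mathlib

/-!
# Collisions of maps and popular values
-/

set_option autoImplicit false

namespace Pool.Agent.N481.GV

open Finset

variable {α β : Type}

/-- the number of the collisions -/
def coll (S : Finset α) (ψ : α → ℤ) : ℕ := ((S ×ˢ S).filter (fun q => ψ q.1 = ψ q.2)).card

theorem cross_eq (S : Finset α) (S' : Finset β) (ψ : α → ℤ) (ψ' : β → ℤ) (W : Finset ℤ)
    (hW : ∀ x ∈ S, ψ x ∈ W) :
    ((S ×ˢ S').filter (fun q => ψ q.1 = ψ' q.2)).card =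
      ∑ w ∈ W, (S.filter (fun x => ψ x = w)).card * (S'.filter (fun x => ψ' x = w)).card := by
  rw [card_eq_sum_card_fiberwise (f := fun q => ψ q.1) (t := W) (by
    intro q hq
    exact hW _ (mem_product.1 (mem_filter.1 hq).1).1)]
  refine sum_congr rfl fun w _ => ?_
  rw [← card_product]
  congr 1
  ext ⟨x, y⟩
  simp only [mem_filter, mem_product]
  constructor
  · rintro ⟨⟨⟨h1, h2⟩, h3⟩, h4⟩
    exact ⟨⟨h1, h4⟩, h2, by rw [← h3, h4]⟩
  · rintro ⟨⟨h1, h4⟩, h2, h5⟩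
    exact ⟨⟨⟨h1, h2⟩, by rw [h4, h5]⟩, h4⟩

theorem coll_eq (S : Finset α) (ψ : α → ℤ) (W : Finset ℤ) (hW : ∀ x ∈ S, ψ x ∈ W) :
    coll S ψ = ∑ w ∈ W, (S.filter (fun x => ψ x = w)).card ^ 2 := by
  unfold coll
  rw [cross_eq S S ψ ψ W hW]
  exact sum_congr rfl fun w _ => (sq _).symm

theorem cross_le (S : Finset α) (S' : Finset β) (ψ : α → ℤ) (ψ' : β → ℤ) :
    2 * ((S ×ˢ S').filter (fun q => ψ q.1 = ψ' q.2)).card ≤ coll S ψ + coll S' ψ' := by
  have h1 := cross_eq S S' ψ ψ' (S.image ψ ∪ S'.image ψ')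
    (fun x hx => mem_union_left _ (mem_image_of_mem _ hx))
  have h2 := coll_eq S ψ (S.image ψ ∪ S'.image ψ') (fun x hx => mem_union_left _ (mem_image_of_mem _ hx))
  have h3 := coll_eq S' ψ' (S.image ψ ∪ S'.image ψ') (fun x hx => mem_union_right _ (mem_image_of_mem _ hx))
  rw [h1, h2, h3, mul_sum, ← sum_add_distrib]
  refine sum_le_sum fun w _ => ?_
  have h4 := two_mul_le_add_sq (((S.filter (fun x => ψ x = w)).card : ℤ)) ((S'.filter (fun x => ψ' x = w)).card : ℤ)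
  zify
  linarith

theorem coll_mul (S : Finset α) (ψ : α → ℤ) (u : ℤ) (hu : u ≠ 0) : coll S (fun x => u * ψ x) = coll S ψ := by
  unfold coll
  congr 1
  ext q
  simp only [mem_filter]
  constructor
  · rintro ⟨h1, h2⟩
    exact ⟨h1, mul_left_cancel₀ hu h2⟩
  · rintro ⟨h1, h2⟩
    exact ⟨h1, by rw [h2]⟩

theorem coll_mono {S S' : Finset α} (h : S ⊆ S') (ψ : α → ℤ) : coll S ψ ≤ coll S' ψ :=
  card_le_card (filter_subset_filter _ (product_subset_product h h))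

/-- the collisions of `u a + v b` on `T × T'` -/
theorem coll_lin (T T' : Finset ℕ) (u v : ℤ) (hu : u ≠ 0) (hv : v ≠ 0) :
    2 * coll (T ×ˢ T') (fun q => u * q.1 + v * q.2) ≤
      coll (T ×ˢ T) (fun q => (q.1 : ℤ) - q.2) + coll (T' ×ˢ T') (fun q => (q.1 : ℤ) - q.2) := by
  have h1 := cross_le (T ×ˢ T) (T' ×ˢ T') (fun q => u * ((q.1 : ℤ) - q.2)) (fun q => (-v) * ((q.1 : ℤ) - q.2))
  rw [coll_mul _ (fun q : ℕ × ℕ => ((q.1 : ℤ) - q.2)) u hu,
    coll_mul _ (fun q : ℕ × ℕ => ((q.1 : ℤ) - q.2)) (-v) (neg_ne_zero.2 hv)] at h1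
  refine le_trans (Nat.mul_le_mul_left 2 ?_) h1
  unfold coll
  refine card_le_card_of_injOn (fun q => ((q.1.1, q.2.1), (q.1.2, q.2.2))) ?_ ?_
  · rintro ⟨⟨a, b⟩, ⟨a', b'⟩⟩ hq
    rw [mem_coe, mem_filter, mem_product, mem_product, mem_product] at hq ⊢
    simp only at hq ⊢
    obtain ⟨⟨⟨h2, h3⟩, h4, h5⟩, h6⟩ := hq
    refine ⟨⟨⟨h2, h4⟩, h3, h5⟩, ?_⟩
    linarith
  · rintro ⟨⟨a, b⟩, ⟨a', b'⟩⟩ _ ⟨⟨c, d⟩, ⟨c', d'⟩⟩ _ h
    simp only [Prod.mk.injEq] at h ⊢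
    tauto

theorem sum_natAbs (X : ℕ) (G : ℕ → ℕ) :
    ∑ d ∈ Icc (-(X : ℤ)) X, G d.natAbs ≤ 2 * ∑ h ∈ Icc 0 X, G h := by
  have h1 : Icc (-(X : ℤ)) X ⊆ (Icc 0 X).image (fun h : ℕ => (h : ℤ)) ∪ (Icc 0 X).image (fun h : ℕ => -(h : ℤ)) := by
    intro d hd
    rw [mem_Icc] at hd
    rw [mem_union, mem_image, mem_image]
    rcases le_total 0 d with h | h
    · exact Or.inl ⟨d.toNat, by rw [mem_Icc]; omega, by omega⟩
    · exact Or.inr ⟨(-d).toNat, by rw [mem_Icc]; omega, by omega⟩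
  have h2 : ∑ d ∈ (Icc 0 X).image (fun h : ℕ => (h : ℤ)), G d.natAbs = ∑ h ∈ Icc 0 X, G h := by
    rw [sum_image (by intro a _ b _ h; simpa using h)]
    simp
  have h3 : ∑ d ∈ (Icc 0 X).image (fun h : ℕ => -(h : ℤ)), G d.natAbs = ∑ h ∈ Icc 0 X, G h := by
    rw [sum_image (by intro a _ b _ h; simpa using h)]
    simp
  have h4 := sum_union_inter (f := fun d : ℤ => G d.natAbs) (s₁ := (Icc 0 X).image (fun h : ℕ => (h : ℤ)))
    (s₂ := (Icc 0 X).image (fun h : ℕ => -(h : ℤ)))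
  have h5 := sum_le_sum_of_subset (f := fun d : ℤ => G d.natAbs) h1
  rw [h2, h3] at h4
  omega

/-- the collisions of the differences -/
theorem coll_diff (X : ℕ) (T : Finset ℕ) (hT : ∀ n ∈ T, n ≤ X) (R : ℕ → ℕ)
    (hR : ∀ h, ((Icc 0 X).filter (fun n => n ∈ T ∧ n + h ∈ T)).card ≤ R h) :
    coll (T ×ˢ T) (fun q => (q.1 : ℤ) - q.2) ≤ 2 * ∑ h ∈ Icc 0 X, R h ^ 2 := by
  rw [coll_eq _ _ (Icc (-(X : ℤ)) X) (by
    intro q hq
    rw [mem_product] at hq
    have := hT _ hq.1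
    have := hT _ hq.2
    rw [mem_Icc]
    omega)]
  refine le_trans (sum_le_sum fun d _ => ?_) (sum_natAbs X (fun h => R h ^ 2))
  have h1 : ((T ×ˢ T).filter (fun q => (q.1 : ℤ) - q.2 = d)).card ≤ R d.natAbs := by
    refine le_trans ?_ (hR d.natAbs)
    refine card_le_card_of_injOn (fun q => min q.1 q.2) ?_ ?_
    · rintro ⟨a, b⟩ hq
      rw [mem_coe, mem_filter, mem_product] at hq
      simp only at hq
      rw [mem_coe, mem_filter, mem_Icc]
      simp only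
      obtain ⟨⟨ha, hb⟩, hd⟩ := hq
      rcases le_total a b with h | h
      · have e : a + d.natAbs = b := by omega
        rw [min_eq_left h, e]
        exact ⟨⟨Nat.zero_le _, hT a ha⟩, ha, hb⟩
      · have e : b + d.natAbs = a := by omega
        rw [min_eq_right h, e]
        exact ⟨⟨Nat.zero_le _, hT b hb⟩, hb, ha⟩
    · rintro ⟨a, b⟩ hq ⟨a', b'⟩ hq' h
      rw [mem_coe, mem_filter] at hq hq'
      simp only at hq hq' h
      have h1 := hq.2
      have h2 := hq'.2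
      rw [Prod.mk.injEq]
      omega
  exact Nat.pow_le_pow_left h1 2

/-- **popular values** -/
theorem popular (P : Finset α) (ψ : α → ℤ) (D : Finset ℤ) (hD : ∀ x ∈ P, ψ x ∈ D) (M E θ : ℝ)
    (hM : M ≤ P.card) (hM0 : 0 < M) (hE : (coll P ψ : ℝ) ≤ E) (hE0 : 0 < E) (hθ : θ * D.card ≤ M / 2) :
    M ^ 2 / (4 * E) ≤ ((D.filter (fun n => θ ≤ ((P.filter (fun x => ψ x = n)).card : ℝ))).card : ℝ) := by
  obtain ⟨r, hr⟩ : ∃ r : ℤ → ℝ, r = fun n => ((P.filter (fun x => ψ x = n)).card : ℝ) := ⟨_, rfl⟩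
  obtain ⟨G, hG⟩ : ∃ G : Finset ℤ, G = D.filter (fun n => θ ≤ r n) := ⟨_, rfl⟩
  have h1 : (P.card : ℝ) = ∑ n ∈ D, r n := by
    rw [card_eq_sum_card_fiberwise (f := ψ) (t := D) hD, hr]
    push_cast
    rfl
  have h2 : ∑ n ∈ D, r n = ∑ n ∈ G, r n + ∑ n ∈ D.filter (fun n => ¬ θ ≤ r n), r n := by
    rw [hG]
    exact (sum_filter_add_sum_filter_not D (fun n => θ ≤ r n) r).symm
  have h3 : ∑ n ∈ D.filter (fun n => ¬ θ ≤ r n), r n ≤ M / 2 := by
    rcases le_total θ 0 with h0 | h0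
    · rw [sum_eq_zero]
      · positivity
      · intro n hn
        exfalso
        apply (mem_filter.1 hn).2
        refine h0.trans ?_
        rw [hr]
        positivity
    · calc ∑ n ∈ D.filter (fun n => ¬ θ ≤ r n), r n ≤ ∑ _n ∈ D.filter (fun n => ¬ θ ≤ r n), θ :=
            sum_le_sum fun n hn => (not_le.1 (mem_filter.1 hn).2).le
        _ = ((D.filter (fun n => ¬ θ ≤ r n)).card : ℝ) * θ := by rw [sum_const, nsmul_eq_mul]
        _ ≤ (D.card : ℝ) * θ := by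
            apply mul_le_mul_of_nonneg_right _ h0
            exact_mod_cast card_filter_le _ _
        _ ≤ M / 2 := by rw [mul_comm]; exact hθ
  have h4 : M / 2 ≤ ∑ n ∈ G, r n := by linarith
  have h5 : (∑ n ∈ G, r n) ^ 2 ≤ (G.card : ℝ) * ∑ n ∈ G, r n ^ 2 := by
    have := sum_mul_sq_le_sq_mul_sq G (fun _ => (1 : ℝ)) r
    simpa using this
  have h6 : ∑ n ∈ G, r n ^ 2 ≤ E := by
    refine le_trans ?_ hE
    rw [coll_eq P ψ D hD]
    push_cast
    rw [hr]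
    apply sum_le_sum_of_subset_of_nonneg
    · rw [hG]; exact filter_subset _ _
    · intro n _ _
      positivity
  have h7 : (M / 2) ^ 2 ≤ (G.card : ℝ) * E := by
    refine (pow_le_pow_left₀ (by positivity) h4 2).trans (h5.trans ?_)
    exact mul_le_mul_of_nonneg_left h6 (Nat.cast_nonneg _)
  rw [div_le_iff₀ (by positivity)]
  have h8 : (D.filter (fun n => θ ≤ ((P.filter (fun x => ψ x = n)).card : ℝ))).card = G.card := by
    rw [hG, hr]
  rw [h8]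
  nlinarith

end Pool.Agent.N481.GV
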