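import Pool.Agent.N481.GV.Hom
import Pool.Agent.X69.Ric.PackS

/-!
# Homothetic copies of finite sets in the set of the frequent vectors of gaps
-/

set_option autoImplicit false

namespace Pool.Agent.N481.GV

open Filter Topology Finset Polynomial
open Pool.Agent.W123.RU.Poly (Sys)
open Pool.Agent.X69.Ric

/-- the frequent vectors of gaps -/
def FQ (g : ℕ) (A : Set ℕ) (X Z Y : ℕ) {m : ℕ} (K κ : ℝ) (h : Fin m → ℕ) : Prop :=
  (∀ i, 0 < h i ∧ (h i : ℝ) ≤ K * Real.log X ^ g) ∧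
    κ * Y / Real.log X ^ (g * (m + 1)) ≤ (fq A Z Y h : ℝ)

/-- from many vectors to copies of bounded ratio -/
theorem box_copies (g m : ℕ) (hg : 1 ≤ g) (K κ : ℝ) (hK : 0 < K) (hκ : 0 < κ) (F : Finset (Fin m → ℕ)) :
    ∃ (T : ℕ) (η : ℝ), 0 < η ∧ ∀ᶠ X : ℕ in atTop, ∀ P : (Fin m → ℕ) → Prop,
      (∀ h, P h → ∀ i, 0 < h i ∧ (h i : ℝ) ≤ K * Real.log X ^ g) →
      κ * Real.log X ^ (g * m) ≤ ({h | P h}.ncard : ℝ) →
      ∃ t : ℕ, 1 ≤ t ∧ t ≤ T ∧ η * Real.log X ^ (g * m) ≤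
        ({h | P h ∧ ∀ v ∈ F, P (h + t • v)}.ncard : ℝ) := by
  classical
  obtain ⟨e⟩ : Nonempty (Fin F.card ≃ F) := ⟨F.equivFin.symm⟩
  obtain ⟨T, N₀, η, hη, hmain⟩ := hom_copies F.card m (κ / K ^ m) (by positivity)
    (Fin.cons 0 (fun j => fun i => ((e j : Fin m → ℕ) i : ℤ)))
  refine ⟨T, η * (K / 2) ^ m, by positivity, ?_⟩
  have hlog : Tendsto (fun X : ℕ => K * Real.log X ^ g) atTop atTop :=
    ((tendsto_pow_atTop (by omega)).comp (Real.tendsto_log_atTop.comp tendsto_natCast_atTop_atTop)).const_mul_atTop hK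
  filter_upwards [hlog.eventually_ge_atTop ((N₀ : ℝ) + 2), eventually_ge_atTop 3] with X hX hX3 P hP hPc
  obtain ⟨R, hR⟩ : ∃ R : ℝ, R = K * Real.log X ^ g := ⟨_, rfl⟩
  rw [← hR] at hX
  obtain ⟨N, hN⟩ : ∃ N : ℕ, N = ⌊R⌋₊ := ⟨_, rfl⟩
  have hR0 : 0 ≤ R := by
    have : (0 : ℝ) ≤ N₀ := Nat.cast_nonneg _
    linarith
  have hN1 : (N : ℝ) ≤ R := by rw [hN]; exact Nat.floor_le hR0
  have hN2 : R / 2 ≤ N := by
    have h1 : R < (N : ℝ) + 1 := by rw [hN]; exact Nat.lt_floor_add_one R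
    have : (0 : ℝ) ≤ N₀ := Nat.cast_nonneg _
    linarith
  have hN0 : N₀ ≤ N := by
    have h1 : R < (N : ℝ) + 1 := by rw [hN]; exact Nat.lt_floor_add_one R
    have : (N₀ : ℝ) < N := by linarith
    exact_mod_cast this.le
  have hlX : 0 < Real.log X := Real.log_pos (by exact_mod_cast (by omega : 1 < X))
  obtain ⟨c, hc⟩ : ∃ c : (Fin m → ℕ) → Fin m → ℤ, c = fun h i => (h i : ℤ) := ⟨_, rfl⟩
  have hcinj : Function.Injective c := by
    intro h h' hh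
    funext i
    have := congrFun hh i
    rw [hc] at this
    beta_reduce at this
    exact_mod_cast this
  have hPfin : {h | P h}.Finite := by
    refine (Set.Finite.pi' (fun _ : Fin m => Set.finite_Icc 0 N)).subset ?_
    intro h hh i
    refine ⟨Nat.zero_le _, ?_⟩
    rw [hN]
    exact Nat.le_floor (by rw [hR]; exact (hP h hh i).2)
  obtain ⟨H, hH⟩ : ∃ H : Finset (Fin m → ℤ), H = hPfin.toFinset.image c := ⟨_, rfl⟩
  have hmem : ∀ y, y ∈ H ↔ ∃ h, P h ∧ c h = y := by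
    intro y
    rw [hH, mem_image]
    simp only [Set.Finite.mem_toFinset, Set.mem_ofPred_eq]
  have hHc : (H.card : ℝ) = ({h | P h}.ncard : ℝ) := by
    rw [hH, card_image_of_injective _ hcinj, Set.ncard_eq_toFinset_card _ hPfin]
  have hHb : H ⊆ Pool.Agent.TH709.RGap.box (fun _ => 1) N := by
    intro y hy
    obtain ⟨h, hh, rfl⟩ := (hmem y).1 hy
    rw [Pool.Agent.TH709.RGap.mem_box]
    intro i
    have h1 := hP h hh i
    have h2 : h i ≤ N := by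
      rw [hN]
      exact Nat.le_floor (by rw [hR]; exact h1.2)
    rw [hc]
    simp only
    constructor
    · exact_mod_cast h1.1
    · have : (h i : ℤ) ≤ N := by exact_mod_cast h2
      linarith
  have hpow : ∀ x : ℝ, (x * Real.log X ^ g) ^ m = x ^ m * Real.log X ^ (g * m) := by
    intro x
    rw [mul_pow, ← pow_mul]
  have hdens : κ / K ^ m * (N : ℝ) ^ m ≤ H.card := by
    rw [hHc]
    refine le_trans ?_ hPc
    calc κ / K ^ m * (N : ℝ) ^ m ≤ κ / K ^ m * (K * Real.log X ^ g) ^ m := by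
          rw [← hR]
          exact mul_le_mul_of_nonneg_left (pow_le_pow_left₀ (Nat.cast_nonneg _) hN1 m) (by positivity)
      _ = κ * Real.log X ^ (g * m) := by
          rw [hpow]
          have : K ^ m ≠ 0 := by positivity
          field_simp
  obtain ⟨t, ht1, htT, ht⟩ := hmain N hN0 (fun _ => 1) H hHb hdens
  refine ⟨t, ht1, htT, ?_⟩
  have h1 : η * (K / 2) ^ m * Real.log X ^ (g * m) ≤ η * (N : ℝ) ^ m := by
    rw [mul_assoc, ← hpow]
    apply mul_le_mul_of_nonneg_left _ hη.le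
    apply pow_le_pow_left₀ (by positivity)
    calc K / 2 * Real.log X ^ g = R / 2 := by rw [hR]; ring
      _ ≤ N := hN2
  refine h1.trans (ht.trans ?_)
  rw [Nat.cast_le]
  refine Set.ncard_le_ncard_of_injOn (fun a i => (a i).toNat) ?_ ?_ ?_
  · intro a ha
    have h0 := ha 0
    rw [Fin.cons_zero, smul_zero, add_zero] at h0
    obtain ⟨h, hh, rfl⟩ := (hmem _).1 h0
    have e1 : (fun i => (c h i).toNat) = h := by
      funext i
      rw [hc]
      simp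
    show P (fun i => (c h i).toNat) ∧ _
    rw [e1]
    refine ⟨hh, fun v hv => ?_⟩
    have h2 := ha (Fin.succ (e.symm ⟨v, hv⟩))
    rw [Fin.cons_succ, Equiv.apply_symm_apply] at h2
    obtain ⟨h', hh', he'⟩ := (hmem _).1 h2
    have e2 : h' = h + t • v := by
      funext i
      have := congrFun he' i
      rw [hc] at this
      beta_reduce at this
      simp only [Pi.add_apply, Pi.smul_apply, smul_eq_mul] at this ⊢
      exact_mod_cast this
    rwa [← e2]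
  · intro a ha b hb hab
    have h0 := ha 0
    have h0' := hb 0
    rw [Fin.cons_zero, smul_zero, add_zero] at h0 h0'
    obtain ⟨h, hh, rfl⟩ := (hmem _).1 h0
    obtain ⟨h', hh', rfl⟩ := (hmem _).1 h0'
    congr 1
    funext i
    have := congrFun hab i
    rw [hc] at this
    simpa using this
  · exact hPfin.subset (fun h hh => hh.1)

variable {g : ℕ} (f : Fin g → ℤ[X])

theorem frq_copies (hg : 1 ≤ g) (hf : Sys f) (δ θ c : ℝ) (hδ : 0 < δ) (hθ : 0 < θ) (hc : 0 < c) (m : ℕ)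
    (hm : 1 ≤ m) :
    ∃ K : ℝ, 0 < K ∧ ∃ κ : ℝ, 0 < κ ∧ ∀ F : Finset (Fin m → ℕ), ∃ (T : ℕ) (η : ℝ), 0 < η ∧
      ∀ᶠ X : ℕ in atTop, ∀ Z Y : ℕ, (X : ℝ) ^ θ ≤ Y → ∀ A : Set ℕ,
      (∀ n ∈ A, n ∈ Set.Ioc Z (Z + Y) → ∀ i, ∀ p : ℕ, p.Prime → (p : ℤ) ∣ (f i).eval (n : ℤ) → (X : ℝ) ^ δ ≤ p) →
      c * Y / Real.log X ^ g ≤ ((A ∩ Set.Ioc Z (Z + Y)).ncard : ℝ) →
      ∃ t : ℕ, 1 ≤ t ∧ t ≤ T ∧ η * Real.log X ^ (g * m) ≤
        ({h : Fin m → ℕ | FQ g A X Z Y K κ h ∧ ∀ v ∈ F, FQ g A X Z Y K κ (h + t • v)}.ncard : ℝ) := by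
  obtain ⟨K, hK, κ, hκ, h⟩ := sys_frq f hg hf δ θ c hδ hθ hc m hm
  refine ⟨K, hK, κ, hκ, fun F => ?_⟩
  obtain ⟨T, η, hη, hT⟩ := box_copies g m hg K κ hK hκ F
  refine ⟨T, η, hη, ?_⟩
  filter_upwards [h, hT] with X hX hTX Z Y hXY A hA hlow
  exact hTX (FQ g A X Z Y K κ) (fun h hh i => hh.1 i) (hX Z Y hXY A hA hlow)

end Pool.Agent.N481.GV
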