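import Pool.Agent.TH709.RGap.Dens

/-!
# Homothetic copies of bounded ratio in dense sets of integer vectors

From the density Hales-Jewett theorem (`Pool.Agent.H602R3.DHJ.dhj`), with unit steps: the ratio is bounded
in terms of the density and the pattern.
-/

set_option autoImplicit false

open Finset

namespace Pool.Agent.N481.GV

open Pool.Agent.H602R3.DHJ
open Pool.Agent.TH709.RGap (box mem_box card_box sum_line' pow_box)

/-- **Homothetic copies of bounded ratio** in dense subsets of cubes. -/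
theorem hom_copies (q e : ℕ) (δ : ℝ) (hδ : 0 < δ) (F : Fin (q + 1) → Fin e → ℤ) :
    ∃ (T N₀ : ℕ) (η : ℝ), 0 < η ∧ ∀ N : ℕ, N₀ ≤ N → ∀ (x : Fin e → ℤ) (H : Finset (Fin e → ℤ)),
      H ⊆ box x N → δ * (N : ℝ) ^ e ≤ H.card → ∃ t : ℕ, 1 ≤ t ∧ t ≤ T ∧
        η * (N : ℝ) ^ e ≤ (Set.ncard {a : Fin e → ℤ | ∀ j, a + (t : ℤ) • F j ∈ H} : ℝ) := by
  classical
  obtain ⟨r, hr⟩ := dhj q (δ / 4) (by positivity)
  obtain ⟨L, hL⟩ : ∃ L : ℕ, L = Fintype.card (Fin r → Fin (q + 1) ⊕ Unit) := ⟨_, rfl⟩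
  have hL0 : 0 < L := by
    rw [hL]
    exact Fintype.card_pos
  have hL0' : (0 : ℝ) < L := by exact_mod_cast hL0
  -- the displacements
  obtain ⟨v, hv⟩ : ∃ v : (Fin r → Fin (q + 1)) → Fin e → ℤ, v = fun u => ∑ i, F (u i) := ⟨_, rfl⟩
  obtain ⟨M, hM⟩ : ∃ M : ℕ, ∀ u j, |v u j| ≤ M := by
    refine ⟨∑ u, ∑ j, (v u j).natAbs, fun u j => ?_⟩
    rw [Int.abs_eq_natAbs]
    have h1 : (v u j).natAbs ≤ ∑ j, (v u j).natAbs :=
      single_le_sum (f := fun j => (v u j).natAbs) (fun _ _ => Nat.zero_le _) (mem_univ j)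
    have h2 : ∑ j, (v u j).natAbs ≤ ∑ u, ∑ j, (v u j).natAbs :=
      single_le_sum (f := fun u => ∑ j, (v u j).natAbs) (fun _ _ => Nat.zero_le _) (mem_univ u)
    exact_mod_cast h1.trans h2
  have hline : ∀ V : Fin r → Fin (q + 1) ⊕ Unit, ∃ s : Fin e → ℤ, ∀ a,
      ∑ i, F (ap V (fun _ => a) i) =
      s + ∑ i ∈ univ.filter (fun i => V i = Sum.inr ()), F a := fun V =>
    sum_line' V (fun _ b => F b)
  choose s hs using hline
  refine ⟨r, 4 * M * e + 1, δ / (2 * L), by positivity, fun N hN x H hH hHc => ?_⟩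
  have hN0 : 0 < N := by omega
  have hNe : (0 : ℝ) < (N : ℝ) ^ e := by
    have : (0 : ℝ) < N := by exact_mod_cast hN0
    positivity
  obtain ⟨Y, hY⟩ : ∃ Y : Finset (Fin e → ℤ), Y = box (fun i => x i - M) (N + 2 * M) := ⟨_, rfl⟩
  have hpow : ((N + 2 * M : ℕ) : ℝ) ^ e ≤ 2 * (N : ℝ) ^ e := pow_box M N e (by omega) hN0
  have hYc : (Y.card : ℝ) ≤ 2 * (N : ℝ) ^ e := by
    rw [hY, card_box, Nat.cast_pow]
    exact hpow
  -- every translate is counted
  have hcnt : ∀ u, (H.card : ℝ) ≤ ∑ y ∈ Y, (if y + v u ∈ H then (1 : ℝ) else 0) := by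
    intro u
    rw [← sum_filter, sum_const, nsmul_eq_mul, mul_one, Nat.cast_le]
    apply card_le_card_of_injOn (fun z => z - v u)
    · intro z hz
      have hzb := (mem_box x N z).1 (hH (mem_coe.1 hz))
      rw [mem_coe, mem_filter, hY, mem_box]
      refine ⟨fun i => ?_, ?_⟩
      · have h1 := hzb i
        have h2 := abs_le.1 (hM u i)
        simp only [Pi.sub_apply]
        push_cast
        constructor <;> linarith [h1.1, h1.2, h2.1, h2.2]
      · simpa using hz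
    · intro z _ z' _ hzz
      simpa using hzz
  obtain ⟨W, hW⟩ : ∃ W : (Fin e → ℤ) → Set (Fin r → Fin (q + 1)), W = fun y => {u | y + v u ∈ H} :=
    ⟨_, rfl⟩
  have hTpos : (0 : ℝ) < Fintype.card (Fin r → Fin (q + 1)) := by exact_mod_cast Fintype.card_pos
  have hdn : ∀ y, dn (W y) = (∑ u, (if y + v u ∈ H then (1 : ℝ) else 0)) /
      Fintype.card (Fin r → Fin (q + 1)) := by
    intro y
    unfold dn av
    congr 1
    refine sum_congr rfl fun u _ => ?_
    rw [Set.indicator_apply, hW]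
    by_cases hu : y + v u ∈ H
    · rw [if_pos hu, if_pos (show u ∈ (fun y => {u | y + v u ∈ H}) y from hu)]
    · rw [if_neg hu, if_neg (show u ∉ (fun y => {u | y + v u ∈ H}) y from hu)]
  have hdn1 : ∀ y, dn (W y) ≤ 1 := by
    intro y
    rw [hdn, div_le_one hTpos]
    calc ∑ u, (if y + v u ∈ H then (1 : ℝ) else 0) ≤ ∑ _u : Fin r → Fin (q + 1), (1 : ℝ) :=
          sum_le_sum fun u _ => by split_ifs <;> norm_num
      _ = _ := by rw [sum_const, card_univ, nsmul_eq_mul, mul_one]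
  have hsum : δ * (N : ℝ) ^ e ≤ ∑ y ∈ Y, dn (W y) := by
    simp_rw [hdn]
    rw [← sum_div, sum_comm, le_div_iff₀ hTpos]
    have h1 : ∑ _u : Fin r → Fin (q + 1), (H.card : ℝ) ≤
        ∑ u, ∑ y ∈ Y, (if y + v u ∈ H then (1 : ℝ) else 0) := sum_le_sum fun u _ => hcnt u
    rw [sum_const, card_univ, nsmul_eq_mul] at h1
    calc δ * (N : ℝ) ^ e * (Fintype.card (Fin r → Fin (q + 1)) : ℝ)
        ≤ H.card * (Fintype.card (Fin r → Fin (q + 1)) : ℝ) := mul_le_mul_of_nonneg_right hHc hTpos.le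
      _ = (Fintype.card (Fin r → Fin (q + 1)) : ℝ) * H.card := mul_comm _ _
      _ ≤ _ := h1
  -- the translates with many words
  obtain ⟨Gd, hG⟩ : ∃ Gd : Finset (Fin e → ℤ), Gd = Y.filter (fun y => δ / 4 ≤ dn (W y)) := ⟨_, rfl⟩
  have hGc : δ / 2 * (N : ℝ) ^ e ≤ Gd.card := by
    have h1 : ∑ y ∈ Y, dn (W y) ≤ ∑ y ∈ Y, ((if δ / 4 ≤ dn (W y) then (1 : ℝ) else 0) + δ / 4) := by
      refine sum_le_sum fun y _ => ?_
      split_ifs with h0
      · have := hdn1 y
        linarith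
      · push Not at h0
        linarith
    rw [sum_add_distrib, ← sum_filter, sum_const, sum_const, nsmul_eq_mul, nsmul_eq_mul, mul_one,
      ← hG] at h1
    have h2 : (Y.card : ℝ) * (δ / 4) ≤ 2 * (N : ℝ) ^ e * (δ / 4) :=
      mul_le_mul_of_nonneg_right hYc (by positivity)
    linarith
  have hVy : ∀ y, ∃ V : Fin r → Fin (q + 1) ⊕ Unit, y ∈ Gd → Pr V ∧
      ∀ t, y + v (ap V (fun _ => t)) ∈ H := by
    intro y
    by_cases hy : y ∈ Gd
    · have hy' : δ / 4 ≤ dn (W y) := by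
        rw [hG] at hy
        exact (mem_filter.1 hy).2
      have hnl : ¬ LFr (W y) := fun hl => absurd (hr _ hl) (not_lt.2 hy')
      unfold LFr at hnl
      push Not at hnl
      obtain ⟨V, hV, hVW⟩ := hnl
      refine ⟨V, fun _ => ⟨hV, fun t => ?_⟩⟩
      have h1 := hVW t
      rw [hW] at h1
      exact h1
    · exact ⟨fun _ => Sum.inr (), fun h => absurd h hy⟩
  choose Vy hVy using hVy
  -- the most frequent line
  have hex : ∃ V : Fin r → Fin (q + 1) ⊕ Unit,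
      δ / (2 * L) * (N : ℝ) ^ e ≤ ((Gd.filter (fun y => Vy y = V)).card : ℝ) := by
    by_contra hcon
    push Not at hcon
    have h1 : (Gd.card : ℝ) = ∑ V : Fin r → Fin (q + 1) ⊕ Unit,
        ((Gd.filter (fun y => Vy y = V)).card : ℝ) := by
      rw [card_eq_sum_card_fiberwise (f := Vy) (t := univ) (fun _ _ => mem_coe.2 (mem_univ _))]
      push_cast
      rfl
    have h2 : ∑ V : Fin r → Fin (q + 1) ⊕ Unit, ((Gd.filter (fun y => Vy y = V)).card : ℝ) <
        ∑ _V : Fin r → Fin (q + 1) ⊕ Unit, δ / (2 * L) * (N : ℝ) ^ e :=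
      sum_lt_sum_of_nonempty univ_nonempty fun V _ => hcon V
    rw [← h1, sum_const, card_univ, nsmul_eq_mul, ← hL] at h2
    have h3 : (L : ℝ) * (δ / (2 * L) * (N : ℝ) ^ e) = δ / 2 * (N : ℝ) ^ e := by
      field_simp
    linarith
  obtain ⟨V, hVc⟩ := hex
  have hVne : (Gd.filter (fun y => Vy y = V)).Nonempty := by
    rw [← card_pos]
    have h1 : (0 : ℝ) < δ / (2 * L) * (N : ℝ) ^ e := by positivity
    exact_mod_cast h1.trans_le hVc
  obtain ⟨y0, hy0⟩ := hVne
  have hV : Pr V := by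
    have h1 := mem_filter.1 hy0
    rw [← h1.2]
    exact (hVy y0 h1.1).1
  obtain ⟨I, hI⟩ : ∃ I : Finset (Fin r), I = univ.filter (fun i => V i = Sum.inr ()) := ⟨_, rfl⟩
  have hI1 : 1 ≤ I.card := by
    obtain ⟨i, hi⟩ := hV ()
    exact card_pos.2 ⟨i, by rw [hI, mem_filter]; exact ⟨mem_univ _, hi⟩⟩
  have hI2 : I.card ≤ r := by
    have := card_le_univ I
    rwa [Fintype.card_fin] at this
  refine ⟨I.card, hI1, hI2, hVc.trans ?_⟩
  have hkey : ∀ y ∈ Gd.filter (fun y => Vy y = V), ∀ j, (y + s V) + ((I.card : ℕ) : ℤ) • F j ∈ H := by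
    intro y hy j
    have h1 := mem_filter.1 hy
    have h2 := (hVy y h1.1).2 j
    rw [h1.2, hv] at h2
    beta_reduce at h2
    have h3 : (∑ i, F (ap V (fun _ => j) i)) = s V + ((I.card : ℕ) : ℤ) • F j := by
      rw [hs V j, ← hI, sum_const, natCast_zsmul]
    rw [h3, ← add_assoc] at h2
    exact h2
  have hfin : (Set.Finite {a : Fin e → ℤ | ∀ j, a + ((I.card : ℕ) : ℤ) • F j ∈ H}) := by
    refine Set.Finite.subset (H.finite_toSet.preimage
      (f := fun a : Fin e → ℤ => a + ((I.card : ℕ) : ℤ) • F 0) (fun a _ b _ hab => ?_)) ?_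
    · exact add_right_cancel hab
    · intro a ha
      exact ha 0
  rw [← Set.ncard_coe_finset, Nat.cast_le]
  refine Set.ncard_le_ncard_of_injOn (fun y => y + s V) (fun y hy => ?_) (fun a _ b _ hab => ?_) hfin
  · exact hkey y (mem_coe.1 hy)
  · exact add_right_cancel hab

end Pool.Agent.N481.GV
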