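import Mathlib

/-!
# Limit points of vectors of gaps: small homothetic copies, ratios
-/

set_option autoImplicit false

namespace Pool.Agent.N481.GV

open MeasureTheory Set Filter Topology

/-- **Small homothetic copies** of finite families in sets of positive measure. -/
theorem small_copies {m : ℕ} {ι : Type} [Fintype ι] (L : Set (Fin m → ℝ)) (hL : MeasurableSet L)
    (h0 : 0 < volume L) (F : ι → Fin m → ℝ) :
    ∃ t₀ : ℝ, 0 < t₀ ∧ ∀ t : ℝ, |t| < t₀ → ∃ x : Fin m → ℝ, ∀ i, x + t • F i ∈ L := by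
  obtain ⟨K, hKL, hK, hK0⟩ := hL.exists_lt_isCompact h0
  have hKt : volume K ≠ ⊤ := hK.measure_lt_top.ne
  have hn : ((Fintype.card ι : ENNReal) + 1) ≠ 0 := by simp
  have hn' : ((Fintype.card ι : ENNReal) + 1) ≠ ⊤ := by
    simp
  obtain ⟨U, hKU, hU, hUlt⟩ := hK.exists_isOpen_lt_add (μ := (volume : Measure (Fin m → ℝ)))
    (ε := volume K / ((Fintype.card ι : ENNReal) + 1)) (ENNReal.div_pos hK0.ne' hn').ne'
  obtain ⟨ε, hε, hεU⟩ := hK.exists_thickening_subset_open hU hKU
  obtain ⟨B, hB⟩ : ∃ B : ℝ, B = 1 + ∑ i, ‖F i‖ := ⟨_, rfl⟩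
  have hBi : ∀ i, ‖F i‖ < B := by
    intro i
    have := Finset.single_le_sum (fun j _ => norm_nonneg (F j)) (Finset.mem_univ i)
    rw [hB]
    linarith
  have hB0 : 0 < B := by
    have : 0 ≤ ∑ i, ‖F i‖ := Finset.sum_nonneg fun i _ => norm_nonneg _
    rw [hB]
    linarith
  refine ⟨ε / B, by positivity, fun t ht => ?_⟩
  have hsub : ∀ i, (fun x : Fin m → ℝ => x + t • F i) ⁻¹' K ⊆ U := by
    intro i x hx
    apply hεU
    rw [Metric.mem_thickening_iff]
    refine ⟨x + t • F i, hx, ?_⟩
    rw [dist_eq_norm, sub_add_cancel_left, norm_neg, norm_smul, Real.norm_eq_abs]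
    calc |t| * ‖F i‖ ≤ |t| * B := mul_le_mul_of_nonneg_left (hBi i).le (abs_nonneg t)
      _ < ε / B * B := mul_lt_mul_of_pos_right ht hB0
      _ = ε := div_mul_cancel₀ _ hB0.ne'
  have hvol : ∀ i, volume ((fun x : Fin m → ℝ => x + t • F i) ⁻¹' K) = volume K := fun i =>
    measure_preimage_add_right _ _ _
  by_contra hcon
  push Not at hcon
  have hcov : U ⊆ ⋃ i, U \ ((fun x : Fin m → ℝ => x + t • F i) ⁻¹' K) := by
    intro x hx
    obtain ⟨i, hi⟩ := hcon x
    exact mem_iUnion.2 ⟨i, hx, fun h => hi (hKL h)⟩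
  have hmeas : ∀ i, MeasurableSet ((fun x : Fin m → ℝ => x + t • F i) ⁻¹' K) := fun i =>
    (measurable_id.add_const _) hK.measurableSet
  have hdiff : ∀ i, volume (U \ ((fun x : Fin m → ℝ => x + t • F i) ⁻¹' K)) ≤
      volume K / ((Fintype.card ι : ENNReal) + 1) := by
    intro i
    rw [measure_sdiff (hsub i) (hmeas i).nullMeasurableSet (by rw [hvol]; exact hKt), hvol]
    exact tsub_le_iff_left.2 hUlt.le
  have h1 : volume U ≤ ∑ i, volume (U \ ((fun x : Fin m → ℝ => x + t • F i) ⁻¹' K)) :=
    (measure_mono hcov).trans (measure_iUnion_fintype_le _ _)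
  have h2 : volume U ≤ (Fintype.card ι : ENNReal) * (volume K / ((Fintype.card ι : ENNReal) + 1)) := by
    refine h1.trans ((Finset.sum_le_sum fun i _ => hdiff i).trans ?_)
    rw [Finset.sum_const, Finset.card_univ, nsmul_eq_mul]
  have h3 : (Fintype.card ι : ENNReal) * (volume K / ((Fintype.card ι : ENNReal) + 1)) < volume K := by
    have e : volume K = ((Fintype.card ι : ENNReal) + 1) *
        (volume K / ((Fintype.card ι : ENNReal) + 1)) := (ENNReal.mul_div_cancel hn hn').symm
    have hd0 : volume K / ((Fintype.card ι : ENNReal) + 1) ≠ 0 := (ENNReal.div_pos hK0.ne' hn').ne'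
    have hdt : volume K / ((Fintype.card ι : ENNReal) + 1) ≠ ⊤ := ENNReal.div_ne_top hKt hn
    conv_rhs => rw [e]
    rw [add_mul, one_mul]
    exact ENNReal.lt_add_right (ENNReal.mul_ne_top (by simp) hdt) hd0
  exact absurd (measure_mono hKU) (not_le.2 (h2.trans_lt h3))

/-- the vector of the ratios to the first coordinate -/
noncomputable def rat {m : ℕ} (t : Fin (m + 1) → ℝ) : Fin m → ℝ := fun i => t i.succ / t 0

theorem rat_null {m : ℕ} (N : Set (Fin m → ℝ)) (hN : MeasurableSet N) (h0 : volume N = 0) :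
    volume {t : Fin (m + 1) → ℝ | 0 < t 0 ∧ rat t ∈ N} = 0 := by
  have hmr : Measurable (rat (m := m)) := by
    unfold rat
    exact measurable_pi_lambda _ fun i => (measurable_pi_apply _).div (measurable_pi_apply _)
  have hS : MeasurableSet {t : Fin (m + 1) → ℝ | 0 < t 0 ∧ rat t ∈ N} :=
    (measurableSet_lt measurable_const (measurable_pi_apply 0)).inter (hmr hN)
  let e := MeasurableEquiv.piFinSuccAbove (fun _ : Fin (m + 1) => ℝ) 0
  have he : MeasurePreserving e := volume_preserving_piFinSuccAbove (fun _ : Fin (m + 1) => ℝ) 0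
  rw [← (he.symm e).measure_preimage hS.nullMeasurableSet]
  have hS' : MeasurableSet (e.symm ⁻¹' {t : Fin (m + 1) → ℝ | 0 < t 0 ∧ rat t ∈ N}) :=
    e.symm.measurable hS
  change (volume.prod volume) _ = 0
  rw [Measure.prod_apply hS', lintegral_eq_zero_iff (measurable_measure_prodMk_left hS')]
  refine Eventually.of_forall fun s => ?_
  show volume (Prod.mk s ⁻¹' (e.symm ⁻¹' {t : Fin (m + 1) → ℝ | 0 < t 0 ∧ rat t ∈ N})) = 0
  by_cases hs : 0 < s
  · refine measure_mono_null (t := (fun y : Fin m → ℝ => s⁻¹ • y) ⁻¹' N) ?_ ?_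
    · intro y hy
      have h1 := hy.2
      have h2 : rat (e.symm (s, y)) = s⁻¹ • y := by
        funext i
        show (e.symm (s, y)) i.succ / (e.symm (s, y)) 0 = _
        have h3 : (e.symm (s, y)) 0 = s := by
          simp [e, MeasurableEquiv.piFinSuccAbove]
        have h4 : (e.symm (s, y)) i.succ = y i := by
          simp [e, MeasurableEquiv.piFinSuccAbove]
        rw [h3, h4, Pi.smul_apply, smul_eq_mul, div_eq_inv_mul]
      rw [mem_preimage, ← h2]
      exact h1
    · rw [Measure.addHaar_preimage_smul _ (inv_ne_zero hs.ne'), h0, mul_zero]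
  · have : Prod.mk s ⁻¹' (e.symm ⁻¹' {t : Fin (m + 1) → ℝ | 0 < t 0 ∧ rat t ∈ N}) = ∅ := by
      rw [Set.eq_empty_iff_forall_notMem]
      intro y hy
      have h1 := hy.1
      have h3 : (e.symm (s, y)) 0 = s := by
        simp [e, MeasurableEquiv.piFinSuccAbove]
      rw [h3] at h1
      exact hs h1
    rw [this, measure_empty]

/-- the ratios of the points of a set of positive measure have positive measure -/
theorem ratio_pos {m : ℕ} (L : Set (Fin (m + 1) → ℝ)) (h0 : 0 < volume L) (hpos : ∀ t ∈ L, 0 ≤ t 0) :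
    0 < volume (rat '' {t | t ∈ L ∧ 0 < t 0}) := by
  rw [pos_iff_ne_zero]
  intro hz
  obtain ⟨N, hLN, hN, hN0⟩ := exists_measurable_superset_of_null hz
  have h1 : L ⊆ {t : Fin (m + 1) → ℝ | t 0 = 0} ∪ {t | 0 < t 0 ∧ rat t ∈ N} := by
    intro t ht
    rcases (hpos t ht).eq_or_lt with h | h
    · exact Or.inl h.symm
    · exact Or.inr ⟨h, hLN ⟨t, ⟨ht, h⟩, rfl⟩⟩
  have h2 : volume {t : Fin (m + 1) → ℝ | t 0 = 0} = 0 := by
    rw [volume_pi]
    exact Measure.pi_hyperplane _ 0 0
  exact absurd (measure_mono_null h1 (measure_union_null h2 (rat_null N hN hN0))) h0.ne'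

/-- ratios of consecutive gaps along a sequence for which the normalised gaps converge -/
theorem cluster_ratio (a : ℕ → ℕ) (ha : StrictMono a) (g m : ℕ) (t : Fin (m + 1) → ℝ)
    (h : MapClusterPt t atTop (fun (k : ℕ) (i : Fin (m + 1)) =>
      ((a (k + i + 1) : ℝ) - a (k + i)) / Real.log (a (k + i)) ^ g)) (ht : 0 < t 0) :
    MapClusterPt (rat t) atTop (fun (k : ℕ) (i : Fin m) =>
      ((a (k + i + 2) : ℝ) - a (k + i + 1)) / ((a (k + 1) : ℝ) - a k)) := by
  rw [mapClusterPt_iff_ultrafilter] at h ⊢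
  obtain ⟨G, hG, hGt⟩ := h
  refine ⟨G, hG, ?_⟩
  rw [tendsto_pi_nhds] at hGt ⊢
  have hat : Tendsto a atTop atTop := ha.tendsto_atTop
  have haj : ∀ j : ℕ, Tendsto (fun k => (a (k + j) : ℝ)) G atTop := fun j =>
    (tendsto_natCast_atTop_atTop.comp (hat.comp (tendsto_add_atTop_nat j))).mono_left hG
  have hlj : ∀ j : ℕ, Tendsto (fun k => Real.log (a (k + j))) G atTop := fun j =>
    Real.tendsto_log_atTop.comp (haj j)
  -- the next logarithm
  have hstep : ∀ j : ℕ, j < m + 1 → Tendsto (fun k => Real.log (a (k + j + 1)) / Real.log (a (k + j))) G (𝓝 1) := by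
    intro j hj
    have h1 := hGt ⟨j, hj⟩
    simp only at h1
    have h2 : Tendsto (fun k => Real.log (a (k + j)) ^ g / (a (k + j) : ℝ)) G (𝓝 0) := by
      have h3 : Tendsto (fun x : ℝ => Real.log x ^ g / x) atTop (𝓝 0) := by
        have := Real.isLittleO_pow_log_id_atTop (n := g)
        exact this.tendsto_div_nhds_zero
      exact h3.comp (haj j)
    have h3 : Tendsto (fun k => ((a (k + j + 1) : ℝ) - a (k + j)) / (a (k + j) : ℝ)) G (𝓝 0) := by
      have h4 := h1.mul h2
      rw [mul_zero] at h4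
      refine h4.congr' ?_
      filter_upwards [(hlj j).eventually_gt_atTop 0] with k hk
      have hk' : Real.log (a (k + j)) ^ g ≠ 0 := (pow_pos hk g).ne'
      field_simp
    have h4 : Tendsto (fun k => (a (k + j + 1) : ℝ) / (a (k + j) : ℝ)) G (𝓝 1) := by
      have h5 := h3.add_const 1
      rw [zero_add] at h5
      refine h5.congr' ?_
      filter_upwards [(haj j).eventually_gt_atTop 0] with k hk
      field_simp
      ring
    have h5 : Tendsto (fun k => Real.log (a (k + j + 1)) - Real.log (a (k + j))) G (𝓝 0) := by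
      have h6 := (Real.continuousAt_log one_ne_zero).tendsto.comp h4
      rw [Real.log_one] at h6
      refine h6.congr' ?_
      filter_upwards [(haj j).eventually_gt_atTop 0, (haj (j + 1)).eventually_gt_atTop 0] with k hk hk1
      exact Real.log_div (by have : k + (j + 1) = k + j + 1 := by ring
                             rw [this] at hk1
                             exact hk1.ne') hk.ne'
    have h6 : Tendsto (fun k => (Real.log (a (k + j + 1)) - Real.log (a (k + j))) *
        (Real.log (a (k + j)))⁻¹) G (𝓝 (0 * 0)) := h5.mul (tendsto_inv_atTop_zero.comp (hlj j))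
    rw [mul_zero] at h6
    have h7 := h6.add_const 1
    rw [zero_add] at h7
    refine h7.congr' ?_
    filter_upwards [(hlj j).eventually_gt_atTop 0] with k hk
    field_simp
    ring
  have hlog : ∀ j : ℕ, j ≤ m + 1 → Tendsto (fun k => Real.log (a (k + j)) / Real.log (a k)) G (𝓝 1) := by
    intro j
    induction j with
    | zero =>
      intro _
      refine tendsto_const_nhds.congr' ?_
      filter_upwards [(hlj 0).eventually_gt_atTop 0] with k hk
      exact (div_self (by simpa using hk.ne')).symm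
    | succ j ih =>
      intro hj
      have h1 := (hstep j (by omega)).mul (ih (by omega))
      rw [one_mul] at h1
      refine h1.congr' ?_
      filter_upwards [(hlj j).eventually_gt_atTop 0, (hlj 0).eventually_gt_atTop 0] with k hk hk0
      have hk0' : Real.log (a k) ≠ 0 := by simpa using hk0.ne'
      rw [show k + (j + 1) = k + j + 1 by ring]
      field_simp
  intro i
  have h1 := hGt i.succ
  have h2 := hGt 0
  have h3 := (hlog (i + 1) (by omega)).pow g
  rw [one_pow] at h3
  have h4 := (h1.mul h3).div h2 ht.ne'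
  rw [mul_one] at h4
  refine h4.congr' ?_
  filter_upwards [(hlj (i + 1)).eventually_gt_atTop 0, (hlj 0).eventually_gt_atTop 0] with k hk hk0
  have hk0' : Real.log (a k) ≠ 0 := by simpa using hk0.ne'
  simp only [Fin.val_succ, Fin.val_zero, add_zero, Pi.div_apply]
  rw [show k + ((i : ℕ) + 1) + 1 = k + i + 2 by ring, show k + ((i : ℕ) + 1) = k + i + 1 by ring]
  have hk' : Real.log (a (k + i + 1)) ≠ 0 := by
    rw [show k + ((i : ℕ) + 1) = k + i + 1 by ring] at hk
    exact hk.ne'
  have hgap : ((a (k + 1) : ℝ) - a k) ≠ 0 := by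
    have : a k < a (k + 1) := ha (Nat.lt_succ_self k)
    have : (a k : ℝ) < a (k + 1) := by exact_mod_cast this
    linarith
  rw [div_pow]
  field_simp

end Pool.Agent.N481.GV
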