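import Pool.Agent.N481.GV.Lim
import Pool.Agent.X69.Ric.SysA

/-!
# Limit points of vectors of gaps: volumes, small homothetic copies, ratios
-/

set_option autoImplicit false

namespace Pool.Agent.N481.GV

open Filter Topology MeasureTheory Polynomial
open Pool.Agent.W123.RU.Poly (Sys)
open Pool.Agent.X69.Ric

theorem irr_quad : Irreducible (X ^ 2 + 1 : ℤ[X]) := by
  have h := Polynomial.cyclotomic.irreducible (n := 2 ^ (1 + 1)) (by norm_num)
  rw [Polynomial.cyclotomic_prime_pow_eq_geom_sum Nat.prime_two] at h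
  have e : (∑ i ∈ Finset.range 2, ((X : ℤ[X]) ^ 2 ^ 1) ^ i) = X ^ 2 + 1 := by
    rw [Finset.sum_range_succ, Finset.sum_range_one]
    ring
  rwa [e] at h

theorem many_infinite (g : ℕ) (A : Set ℕ) (h : Many g A) : A.Infinite := by
  obtain ⟨c, hc, hX⟩ := h
  intro hfin
  have h1 : Tendsto (fun X : ℕ => Real.log X ^ g / (X : ℝ)) atTop (𝓝 0) :=
    ((Real.isLittleO_pow_log_id_atTop (n := g)).tendsto_div_nhds_zero).comp tendsto_natCast_atTop_atTop
  have h2 : (0 : ℝ) < c / (A.ncard + 1) := by positivity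
  obtain ⟨X, h3, h4, h5⟩ := (hX.and ((h1.eventually_lt_const h2).and (eventually_ge_atTop 3))).exists
  have hX0 : (0 : ℝ) < X := by exact_mod_cast (by omega : 0 < X)
  have hlX : 0 < Real.log X := Real.log_pos (by exact_mod_cast (by omega : 1 < X))
  have h6 : ((A ∩ Set.Icc 1 X).ncard : ℝ) ≤ A.ncard := by
    exact_mod_cast Set.ncard_le_ncard Set.inter_subset_left hfin
  rw [div_lt_div_iff₀ hX0 (by positivity)] at h4
  rw [div_le_iff₀ (by positivity)] at h3
  have h7 : ((A ∩ Set.Icc 1 X).ncard : ℝ) * Real.log X ^ g ≤ A.ncard * Real.log X ^ g :=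
    mul_le_mul_of_nonneg_right h6 (by positivity)
  nlinarith [pow_pos hlX g]

/-- the vector of the ratios of the gaps to the first of them -/
noncomputable def ratv (A : Set ℕ) (m k : ℕ) : Fin m → ℝ := fun i =>
  ((Nat.nth (· ∈ A) (k + i + 2) : ℝ) - Nat.nth (· ∈ A) (k + i + 1)) /
    ((Nat.nth (· ∈ A) (k + 1) : ℝ) - Nat.nth (· ∈ A) k)

theorem isClosed_cluster {m : ℕ} (u : ℕ → Fin m → ℝ) : IsClosed {t | MapClusterPt t atTop u} :=
  isClosed_setOfPred_clusterPt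

theorem gapv_nonneg (g : ℕ) (A : Set ℕ) (hA : A.Infinite) (m : ℕ) (t : Fin m → ℝ)
    (ht : MapClusterPt t atTop (gapv g A m)) (i : Fin m) : 0 ≤ t i := by
  rw [mapClusterPt_iff_ultrafilter] at ht
  obtain ⟨G, hG, hGt⟩ := ht
  rw [tendsto_pi_nhds] at hGt
  refine ge_of_tendsto (hGt i) (Eventually.of_forall fun k => ?_)
  unfold gapv
  have h1 : Nat.nth (· ∈ A) (k + i) < Nat.nth (· ∈ A) (k + i + 1) :=
    Nat.nth_strictMono hA (Nat.lt_succ_self _)
  have h2 : (Nat.nth (· ∈ A) (k + i) : ℝ) < Nat.nth (· ∈ A) (k + i + 1) := by exact_mod_cast h1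
  have h3 : 0 ≤ Real.log (Nat.nth (· ∈ A) (k + i)) := Real.log_natCast_nonneg _
  exact div_nonneg (by linarith) (pow_nonneg h3 g)

theorem ratio_cluster_pos (g : ℕ) (A : Set ℕ) (hA : A.Infinite) (m : ℕ)
    (h0 : 0 < volume {t : Fin (m + 1) → ℝ | MapClusterPt t atTop (gapv g A (m + 1))}) :
    0 < volume {t : Fin m → ℝ | MapClusterPt t atTop (ratv A m)} := by
  refine (ratio_pos _ h0 (fun t ht => gapv_nonneg g A hA _ t ht 0)).trans_le (measure_mono ?_)
  rintro _ ⟨t, ⟨ht, ht0⟩, rfl⟩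
  exact cluster_ratio (Nat.nth (· ∈ A)) (Nat.nth_strictMono hA) g m t ht ht0

/-- small homothetic copies in the limit points -/
theorem copies_cluster {m : ℕ} (u : ℕ → Fin m → ℝ) (h0 : 0 < volume {t | MapClusterPt t atTop u})
    (F : Finset (Fin m → ℝ)) :
    ∃ t₀ : ℝ, 0 < t₀ ∧ ∀ t : ℝ, |t| < t₀ → ∃ x : Fin m → ℝ, ∀ v ∈ F, MapClusterPt (x + t • v) atTop u := by
  obtain ⟨t₀, ht₀, h⟩ := small_copies _ (isClosed_cluster u).measurableSet h0 (fun v : F => (v : Fin m → ℝ))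
  refine ⟨t₀, ht₀, fun t ht => ?_⟩
  obtain ⟨x, hx⟩ := h t ht
  exact ⟨x, fun v hv => hx ⟨v, hv⟩⟩

end Pool.Agent.N481.GV
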