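import Pool.Agent.X69.Ric.PackP

/-!
# The polynomials `X ^ 2 + 1` and `4 X ^ 2 + 1`
-/

set_option autoImplicit false

namespace Pool.Agent.N481.GV

open Polynomial Filter
open Pool.Agent.X69.Ric

theorem irr_one : Irreducible (X ^ 2 + 1 : ℤ[X]) := by
  have h := Polynomial.cyclotomic.irreducible (n := 2 ^ (1 + 1)) (by norm_num)
  rw [Polynomial.cyclotomic_prime_pow_eq_geom_sum Nat.prime_two] at h
  have e : (∑ i ∈ Finset.range 2, ((X : ℤ[X]) ^ 2 ^ 1) ^ i) = X ^ 2 + 1 := by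
    rw [Finset.sum_range_succ, Finset.sum_range_one]
    ring
  rwa [e] at h

theorem irr_four : Irreducible (4 * X ^ 2 + 1 : ℤ[X]) := by
  have hprim : (4 * X ^ 2 + 1 : ℤ[X]).IsPrimitive := by
    intro r hr
    rw [C_dvd_iff_dvd_coeff] at hr
    have h1 := hr 0
    have h2 : (4 * X ^ 2 + 1 : ℤ[X]).coeff 0 = 1 := by
      simp [coeff_one]
    rw [h2] at h1
    exact isUnit_of_dvd_one h1
  rw [Polynomial.IsPrimitive.Int.irreducible_iff_irreducible_map_cast hprim]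
  have e : (4 * X ^ 2 + 1 : ℤ[X]).map (Int.castRingHom ℚ) = 4 * X ^ 2 + 1 := by
    simp
  rw [e]
  have hd : (4 * X ^ 2 + 1 : ℚ[X]).natDegree = 2 := by compute_degree!
  apply Polynomial.irreducible_of_degree_le_three_of_not_isRoot
  · rw [hd]; decide
  · intro x hx
    have h1 : (4 * X ^ 2 + 1 : ℚ[X]).eval x = 0 := hx
    simp at h1
    nlinarith [sq_nonneg x]

theorem deg_one : (X ^ 2 + 1 : ℤ[X]).natDegree = 2 := by compute_degree!

theorem lead_one : (X ^ 2 + 1 : ℤ[X]).leadingCoeff = 1 := by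
  rw [leadingCoeff, deg_one]
  have : (X ^ 2 + 1 : ℤ[X]) = X ^ 2 + C 1 := by simp
  rw [this]
  simp only [coeff_add, coeff_X_pow, coeff_C]
  norm_num

theorem deg_four : (4 * X ^ 2 + 1 : ℤ[X]).natDegree = 2 := by compute_degree!

theorem lead_four : (4 * X ^ 2 + 1 : ℤ[X]).leadingCoeff = 4 := by
  rw [leadingCoeff, deg_four]
  have : (4 * X ^ 2 + 1 : ℤ[X]) = C 4 * X ^ 2 + C 1 := by simp
  rw [this]
  simp only [coeff_add, coeff_C_mul, coeff_X_pow, coeff_C]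
  norm_num

theorem eval_four (n : ℤ) : (4 * X ^ 2 + 1 : ℤ[X]).eval n = 4 * n ^ 2 + 1 := by simp

theorem eval_one' (n : ℤ) : (X ^ 2 + 1 : ℤ[X]).eval n = n ^ 2 + 1 := by simp

theorem adm_one (p : ℕ) (hp : p.Prime) : ¬ (p : ℤ) ∣ (X ^ 2 + 1 : ℤ[X]).eval ((0 : ℕ) : ℤ) := by
  rw [eval_one']
  intro hd
  have h2 : (p : ℤ) ∣ ((1 : ℕ) : ℤ) := by simpa using hd
  exact hp.one_lt.ne' (Nat.dvd_one.1 (Int.natCast_dvd_natCast.1 h2))

/-- no prime divides `m (4 m ^ 2 + 1)` for every `m` -/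
theorem adm_four (p : ℕ) (hp : p.Prime) : ∃ m : ℕ, ¬ p ∣ m ∧ ¬ (p : ℤ) ∣ (4 * X ^ 2 + 1 : ℤ[X]).eval (m : ℤ) := by
  by_cases h5 : p = 5
  · subst h5
    refine ⟨2, by norm_num, ?_⟩
    rw [eval_four]
    norm_num
  · refine ⟨1, fun h => hp.one_lt.ne' (Nat.dvd_one.1 h), ?_⟩
    rw [eval_four]
    intro hd
    have h2 : (p : ℤ) ∣ ((5 : ℕ) : ℤ) := by
      have e : (4 * ((1 : ℕ) : ℤ) ^ 2 + 1) = ((5 : ℕ) : ℤ) := by norm_num
      rwa [e] at hd
    have h3 : p ∣ 5 := Int.natCast_dvd_natCast.1 h2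
    rcases (Nat.dvd_prime (by norm_num)).1 h3 with h | h
    · exact hp.one_lt.ne' h
    · exact h5 h

theorem psys_four : PSys (fun _ : Fin 1 => (4 * X ^ 2 + 1 : ℤ[X])) (fun n _ => 4 * n ^ 2 + 1) where
  irr := fun _ => irr_four
  deg := fun _ => by rw [deg_four]; norm_num
  lead := fun _ => by rw [lead_four]; norm_num
  inj := fun _ _ _ => Subsingleton.elim _ _
  neX := fun _ h => by
    have h1 := congrArg natDegree h
    rw [deg_four, natDegree_X] at h1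
    omega
  adm := fun p hp => by
    obtain ⟨m, h1, h2⟩ := adm_four p hp
    exact ⟨m, h1, fun _ => h2⟩
  val := fun n _ _ => by
    rw [eval_four]
    push_cast
    ring

end Pool.Agent.N481.GV
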