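import Pool.Agent.N481.GV.Coll
import Pool.Agent.X69.Ric.PackP
import Pool.Agent.W851.Had.Schn

/-!
# Popular values of linear forms on dense sets of integers with rough values, and additive bases
-/

set_option autoImplicit false

namespace Pool.Agent.N481.GV

open Filter Topology Finset Polynomial
open Pool.Agent.W123.RU.Poly (Sys)
open Pool.Agent.X69.Ric

variable {g : ℕ} (f : Fin g → ℤ[X])

/-- rough values -/
def RoughS (δ : ℝ) (n : ℕ) : Prop :=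
  ∀ i, ∀ p : ℕ, p.Prime → (p : ℤ) ∣ (f i).eval (n : ℤ) → (n : ℝ) ^ δ ≤ p

theorem card_le_Rp (T : Finset ℕ) (X h : ℕ) :
    ((Icc 0 X).filter (fun n => n ∈ T ∧ n + h ∈ T)).card ≤ Rp (T : Set ℕ) X h := by
  unfold Rp
  apply card_le_card
  intro n hn
  rw [mem_filter] at hn
  exact (@Finset.mem_filter _ _ (_) _ _).2 ⟨hn.1, hn.2.1, hn.2.2⟩

theorem Rp_le (A : Set ℕ) (X h : ℕ) : Rp A X h ≤ X + 1 := by
  unfold Rp
  refine (@Finset.card_filter_le _ _ _ (_)).trans ?_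
  rw [Nat.card_Icc]
  omega

theorem coll_rough (hg : 1 ≤ g) (hf : Sys f) (δ : ℝ) (hδ : 0 < δ) :
    ∃ C : ℝ, 0 < C ∧ ∀ᶠ X : ℕ in atTop, ∀ T : Finset ℕ, (∀ n ∈ T, n ≤ X) → (∀ n ∈ T, RoughS f δ n) →
      (coll (T ×ˢ T) (fun q => (q.1 : ℤ) - q.2) : ℝ) ≤ C * ((X : ℝ) ^ 3 / Real.log X ^ (4 * g)) := by
  classical
  obtain ⟨C₀, hC₀, hV⟩ := sys_up f hf
  obtain ⟨M, hM0, hMc⟩ := sys_coll f hf
  obtain ⟨e, he⟩ := zeros_bd M hM0
  obtain ⟨C, hC, hrp⟩ := rp_bd (SF f) (sys_NF f hf) g hg C₀ hC₀ hV δ hδ M hM0 hMc e he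
  refine ⟨2 * (1 + C), by positivity, ?_⟩
  filter_upwards [hrp, log_pow_small (4 * g) (1 / (4 * ((e : ℝ) + 1))) (by positivity),
    eventually_ge_atTop (max 3 e)] with X h1 h2 h3 T hT hR
  have hX3 : 3 ≤ X := (le_max_left _ _).trans h3
  have hXe : e ≤ X := (le_max_right _ _).trans h3
  have hXr : (3 : ℝ) ≤ X := by exact_mod_cast hX3
  have hlX : 0 < Real.log X := Real.log_pos (by linarith)
  have hRV : RV (SF f) δ (T : Set ℕ) := by
    intro n hn p hp hlt hdvd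
    obtain ⟨i, hi⟩ := (SF_dvd f _ p hp).1 hdvd
    exact absurd (hR n (mem_coe.1 hn) i p hp hi) (not_le.2 hlt)
  have h4 := coll_diff X T hT (fun h => Rp (T : Set ℕ) X h) (fun h => by
    exact card_le_Rp T X h)
  have h5 : ((∑ h ∈ Icc 0 X, Rp (T : Set ℕ) X h ^ 2 : ℕ) : ℝ) ≤
      (e + 1) * ((X : ℝ) + 1) ^ 2 + C * ((X : ℝ) ^ 3 / Real.log X ^ (4 * g)) := by
    push_cast
    have h7 : Icc 0 X = Icc 0 e ∪ Ioc e X := by
      ext x
      rw [mem_union, mem_Icc, mem_Icc, mem_Ioc]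
      omega
    rw [h7, Finset.sum_union (by
      rw [disjoint_left]
      intro x hx hx'
      rw [mem_Icc] at hx
      rw [mem_Ioc] at hx'
      omega)]
    apply add_le_add _ (h1 _ hRV)
    have h8 : ∀ h ∈ Icc 0 e, (Rp (T : Set ℕ) X h : ℝ) ^ 2 ≤ ((X : ℝ) + 1) ^ 2 := by
      intro h _
      have h9 : Rp (T : Set ℕ) X h ≤ X + 1 := Rp_le _ X h
      have h10 : (Rp (T : Set ℕ) X h : ℝ) ≤ X + 1 := by exact_mod_cast h9
      gcongr
    refine (Finset.sum_le_sum h8).trans ?_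
    rw [sum_const, Nat.card_Icc, nsmul_eq_mul]
    push_cast
    simp
  have h6 : ((e : ℝ) + 1) * ((X : ℝ) + 1) ^ 2 ≤ (X : ℝ) ^ 3 / Real.log X ^ (4 * g) := by
    rw [le_div_iff₀ (by positivity)]
    have he0 : (0 : ℝ) ≤ e := Nat.cast_nonneg _
    calc ((e : ℝ) + 1) * ((X : ℝ) + 1) ^ 2 * Real.log X ^ (4 * g) ≤
        (e + 1) * ((X : ℝ) + 1) ^ 2 * (1 / (4 * ((e : ℝ) + 1)) * X) := by gcongr
      _ = ((X : ℝ) + 1) ^ 2 * X / 4 := by field_simp
      _ ≤ (2 * (X : ℝ)) ^ 2 * X / 4 := by gcongr; linarith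
      _ = (X : ℝ) ^ 3 := by ring
  have h7 : (coll (T ×ˢ T) (fun q => (q.1 : ℤ) - q.2) : ℝ) ≤ 2 * ((∑ h ∈ Icc 0 X, Rp (T : Set ℕ) X h ^ 2 : ℕ) : ℝ) := by
    exact_mod_cast h4
  linarith

/-- **popular values of linear forms** -/
theorem pop_rough (hg : 1 ≤ g) (hf : Sys f) (δ η : ℝ) (hδ : 0 < δ) (hη : 0 < η) (u v : ℤ) (hu : u ≠ 0) (hv : v ≠ 0) :
    ∃ c : ℝ, 0 < c ∧ ∀ᶠ X : ℕ in atTop, ∀ T T' : Finset ℕ, (∀ n ∈ T, n ≤ X) → (∀ n ∈ T', n ≤ X) →
      (∀ n ∈ T, RoughS f δ n) → (∀ n ∈ T', RoughS f δ n) → ∀ P : Finset (ℕ × ℕ), P ⊆ T ×ˢ T' →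
      η * ((X : ℝ) ^ 2 / Real.log X ^ (2 * g)) ≤ P.card →
      c * X ≤ (({n : ℤ | c * (X / Real.log X ^ (2 * g)) ≤
        ((P.filter (fun q => u * q.1 + v * q.2 = n)).card : ℝ)}).ncard : ℝ) := by
  classical
  obtain ⟨C, hC, h⟩ := coll_rough f hg hf δ hδ
  obtain ⟨B, hB⟩ : ∃ B : ℕ, B = u.natAbs + v.natAbs := ⟨_, rfl⟩
  have hB1 : 1 ≤ B := by
    have := Int.natAbs_pos.2 hu
    omega
  have hB1r : (1 : ℝ) ≤ B := by exact_mod_cast hB1
  refine ⟨min (η / (6 * B)) (η ^ 2 / (4 * C)), lt_min (by positivity) (by positivity), ?_⟩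
  obtain ⟨c, hc⟩ : ∃ c : ℝ, c = min (η / (6 * B)) (η ^ 2 / (4 * C)) := ⟨_, rfl⟩
  rw [← hc]
  have hc0 : 0 < c := by rw [hc]; exact lt_min (by positivity) (by positivity)
  have hc1 : c ≤ η / (6 * B) := by rw [hc]; exact min_le_left _ _
  have hc2 : c ≤ η ^ 2 / (4 * C) := by rw [hc]; exact min_le_right _ _
  filter_upwards [h, eventually_ge_atTop 3] with X hX hX3 T T' hT hT' hR hR' P hP hPc
  have hXr : (3 : ℝ) ≤ X := by exact_mod_cast hX3
  have hlX : 0 < Real.log X := Real.log_pos (by linarith)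
  obtain ⟨D, hD⟩ : ∃ D : Finset ℤ, D = Icc (-((B * X : ℕ) : ℤ)) (B * X : ℕ) := ⟨_, rfl⟩
  have hPD : ∀ q ∈ P, u * (q.1 : ℤ) + v * q.2 ∈ D := by
    intro q hq
    have hq' := mem_product.1 (hP hq)
    have h1 : (q.1 : ℤ) ≤ X := by exact_mod_cast hT _ hq'.1
    have h2 : (q.2 : ℤ) ≤ X := by exact_mod_cast hT' _ hq'.2
    have h3 : |u * (q.1 : ℤ) + v * q.2| ≤ B * X := by
      calc |u * (q.1 : ℤ) + v * q.2| ≤ |u * (q.1 : ℤ)| + |v * (q.2 : ℤ)| := abs_add_le _ _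
        _ = |u| * q.1 + |v| * q.2 := by
            rw [abs_mul, abs_mul, Nat.abs_cast, Nat.abs_cast]
        _ ≤ |u| * X + |v| * X := by
            gcongr
        _ = B * X := by
            rw [hB, Int.abs_eq_natAbs, Int.abs_eq_natAbs]
            push_cast
            ring
    rw [hD, mem_Icc]
    push_cast
    exact abs_le.1 h3
  have hDc : (D.card : ℝ) ≤ 3 * (B * X) := by
    rw [hD, Int.card_Icc]
    have h1 : (((B * X : ℕ) : ℤ) + 1 - -((B * X : ℕ) : ℤ)).toNat = 2 * (B * X) + 1 := by omega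
    rw [h1]
    push_cast
    nlinarith
  have hE : (coll P (fun q => u * (q.1 : ℤ) + v * q.2) : ℝ) ≤ C * ((X : ℝ) ^ 3 / Real.log X ^ (4 * g)) := by
    have h1 := coll_mono hP (fun q => u * (q.1 : ℤ) + v * q.2)
    have h2 := coll_lin T T' u v hu hv
    have h3 := hX T hT hR
    have h4 := hX T' hT' hR'
    have h5 : (2 : ℝ) * coll (T ×ˢ T') (fun q => u * (q.1 : ℤ) + v * q.2) ≤
        coll (T ×ˢ T) (fun q => (q.1 : ℤ) - q.2) + coll (T' ×ˢ T') (fun q => (q.1 : ℤ) - q.2) := by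
      exact_mod_cast h2
    have h6 : (coll P (fun q => u * (q.1 : ℤ) + v * q.2) : ℝ) ≤ coll (T ×ˢ T') (fun q => u * (q.1 : ℤ) + v * q.2) := by
      exact_mod_cast h1
    linarith
  have hM0 : 0 < η * ((X : ℝ) ^ 2 / Real.log X ^ (2 * g)) := by positivity
  have hθ : c * (X / Real.log X ^ (2 * g)) * D.card ≤ η * ((X : ℝ) ^ 2 / Real.log X ^ (2 * g)) / 2 := by
    calc c * (X / Real.log X ^ (2 * g)) * D.card ≤ η / (6 * B) * (X / Real.log X ^ (2 * g)) * (3 * (B * X)) := by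
          gcongr
      _ = η * ((X : ℝ) ^ 2 / Real.log X ^ (2 * g)) / 2 := by
          field_simp
          ring
  have h1 := popular P (fun q => u * (q.1 : ℤ) + v * q.2) D hPD _ _ _ hPc hM0 hE (by positivity) hθ
  have h2 : c * (X : ℝ) ≤ (η * ((X : ℝ) ^ 2 / Real.log X ^ (2 * g))) ^ 2 / (4 * (C * ((X : ℝ) ^ 3 / Real.log X ^ (4 * g)))) := by
    have e : (η * ((X : ℝ) ^ 2 / Real.log X ^ (2 * g))) ^ 2 / (4 * (C * ((X : ℝ) ^ 3 / Real.log X ^ (4 * g)))) =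
        η ^ 2 / (4 * C) * X := by
      have e1 : Real.log X ^ (4 * g) = (Real.log X ^ (2 * g)) ^ 2 := by
        rw [← pow_mul]
        congr 1
        ring
      rw [e1]
      have e2 : Real.log X ^ (2 * g) ≠ 0 := by positivity
      have e3 : (X : ℝ) ≠ 0 := by positivity
      field_simp
    rw [e]
    gcongr
  refine h2.trans (h1.trans ?_)
  have e : {n : ℤ | c * (X / Real.log X ^ (2 * g)) ≤ ((P.filter (fun q => u * q.1 + v * q.2 = n)).card : ℝ)} =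
      ((D.filter (fun n => c * (X / Real.log X ^ (2 * g)) ≤
        ((P.filter (fun q => u * q.1 + v * q.2 = n)).card : ℝ)) : Finset ℤ) : Set ℤ) := by
    ext n
    simp only [Set.mem_ofPred_eq, coe_filter]
    constructor
    · intro hn
      refine ⟨?_, hn⟩
      have h3 : (0 : ℝ) < ((P.filter (fun q => u * q.1 + v * q.2 = n)).card : ℝ) := lt_of_lt_of_le (by positivity) hn
      have h4 : 0 < (P.filter (fun q => u * q.1 + v * q.2 = n)).card := by exact_mod_cast h3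
      obtain ⟨q, hq⟩ := card_pos.1 h4
      rw [mem_filter] at hq
      rw [← hq.2]
      exact hPD q hq.1
    · exact fun hn => hn.2
  rw [e, Set.ncard_coe_finset]

/-- the sums of two elements have positive lower density -/
theorem sums_dense (hg : 1 ≤ g) (hf : Sys f) (δ : ℝ) (hδ : 0 < δ) (S : Set ℕ) (hS : ∀ n ∈ S, RoughS f δ n)
    (hM : Many g S) : ∃ c : ℝ, 0 < c ∧ ∀ᶠ X : ℕ in atTop,
      c * X ≤ (({n : ℕ | n ≤ X ∧ ∃ a ∈ S, ∃ b ∈ S, 1 ≤ a ∧ 1 ≤ b ∧ a + b = n}).ncard : ℝ) := by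
  classical
  obtain ⟨c₀, hc₀, hlow⟩ := hM
  obtain ⟨c, hc, hpop⟩ := pop_rough f hg hf δ (c₀ ^ 2) hδ (by positivity) 1 1 one_ne_zero one_ne_zero
  refine ⟨c / 3, by positivity, ?_⟩
  have ht : Tendsto (fun X : ℕ => X / 2) atTop atTop := Nat.tendsto_div_const_atTop (by norm_num)
  filter_upwards [ht.eventually hpop, ht.eventually hlow, eventually_ge_atTop 6] with X h1 h2 h3
  obtain ⟨Y, hY⟩ : ∃ Y : ℕ, Y = X / 2 := ⟨_, rfl⟩
  rw [← hY] at h1 h2
  have hY3 : 3 ≤ Y := by omega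
  have hYr : (3 : ℝ) ≤ Y := by exact_mod_cast hY3
  have hlY : 0 < Real.log Y := Real.log_pos (by linarith)
  obtain ⟨T, hT⟩ : ∃ T : Finset ℕ, T = (Icc 1 Y).filter (· ∈ S) := ⟨_, rfl⟩
  have hTc : c₀ * Y / Real.log Y ^ g ≤ (T.card : ℝ) := by
    refine h2.trans (le_of_eq ?_)
    rw [hT, ← Set.ncard_coe_finset]
    congr 2
    ext n
    simp only [Set.mem_inter_iff, Set.mem_Icc, coe_filter, mem_Icc, Set.mem_ofPred_eq]
    tauto
  have hTX : ∀ n ∈ T, n ≤ Y := fun n hn => by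
    rw [hT, mem_filter, mem_Icc] at hn
    exact hn.1.2
  have hTR : ∀ n ∈ T, RoughS f δ n := fun n hn => by
    rw [hT, mem_filter] at hn
    exact hS n hn.2
  have hPc : c₀ ^ 2 * ((Y : ℝ) ^ 2 / Real.log Y ^ (2 * g)) ≤ ((T ×ˢ T).card : ℝ) := by
    rw [card_product]
    push_cast
    calc c₀ ^ 2 * ((Y : ℝ) ^ 2 / Real.log Y ^ (2 * g)) = (c₀ * Y / Real.log Y ^ g) * (c₀ * Y / Real.log Y ^ g) := by
          rw [mul_comm 2 g, pow_mul]
          have : Real.log Y ^ g ≠ 0 := by positivity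
          field_simp
      _ ≤ (T.card : ℝ) * T.card := by gcongr
  have h4 := h1 T T hTX hTX hTR hTR (T ×ˢ T) (Subset.refl _) hPc
  have h5 : c / 3 * (X : ℝ) ≤ c * Y := by
    have : (X : ℝ) ≤ 3 * Y := by exact_mod_cast (by omega : X ≤ 3 * Y)
    calc c / 3 * (X : ℝ) ≤ c / 3 * (3 * Y) := by gcongr
      _ = c * Y := by ring
  refine h5.trans (h4.trans ?_)
  rw [Nat.cast_le]
  have hfin : {n : ℕ | n ≤ X ∧ ∃ a ∈ S, ∃ b ∈ S, 1 ≤ a ∧ 1 ≤ b ∧ a + b = n}.Finite :=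
    (Set.finite_Icc 0 X).subset (fun n hn => ⟨Nat.zero_le _, hn.1⟩)
  have hsub : {n : ℤ | c * (Y / Real.log Y ^ (2 * g)) ≤
        (((T ×ˢ T).filter (fun q => 1 * (q.1 : ℤ) + 1 * q.2 = n)).card : ℝ)} ⊆
      (fun n : ℕ => (n : ℤ)) '' {n : ℕ | n ≤ X ∧ ∃ a ∈ S, ∃ b ∈ S, 1 ≤ a ∧ 1 ≤ b ∧ a + b = n} := by
    intro n hn
    rw [Set.mem_ofPred_eq] at hn
    have h6 : (0 : ℝ) < (((T ×ˢ T).filter (fun q => 1 * (q.1 : ℤ) + 1 * q.2 = n)).card : ℝ) :=
      lt_of_lt_of_le (by positivity) hn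
    have h7 : 0 < ((T ×ˢ T).filter (fun q => 1 * (q.1 : ℤ) + 1 * q.2 = n)).card := by exact_mod_cast h6
    obtain ⟨q, hq⟩ := card_pos.1 h7
    rw [mem_filter, mem_product, hT, mem_filter, mem_filter, mem_Icc, mem_Icc] at hq
    obtain ⟨⟨⟨ha, haS⟩, ⟨hb, hbS⟩⟩, hn'⟩ := hq
    refine ⟨q.1 + q.2, ⟨by omega, q.1, haS, q.2, hbS, ha.1, hb.1, rfl⟩, ?_⟩
    rw [← hn']
    push_cast
    ring
  refine (Set.ncard_le_ncard hsub (hfin.image _)).trans ?_
  exact Set.ncard_image_le hfin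

/-- from sums of two elements to elements -/
theorem collect (S : Set ℕ) (l : List ℕ)
    (hl : ∀ y ∈ l, y = 0 ∨ y = 1 ∨ ∃ a ∈ S, ∃ b ∈ S, 1 ≤ a ∧ 1 ≤ b ∧ a + b = y) :
    ∃ l' : List ℕ, l'.length ≤ 2 * l.length ∧ (∀ r ∈ l', r = 1 ∨ r ∈ S) ∧ l'.sum = l.sum := by
  induction l with
  | nil => exact ⟨[], by simp, by simp, by simp⟩
  | cons a l ih =>
    obtain ⟨l', h2, h3, h4⟩ := ih (fun y hy => hl y (List.mem_cons_of_mem _ hy))
    rcases hl a List.mem_cons_self with h | h | ⟨r, hr, s, hs, -, -, hrs⟩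
    · refine ⟨l', ?_, h3, ?_⟩
      · rw [List.length_cons]; omega
      · rw [List.sum_cons]; omega
    · refine ⟨1 :: l', ?_, ?_, ?_⟩
      · rw [List.length_cons, List.length_cons]; omega
      · intro y hy
        rcases List.mem_cons.1 hy with rfl | hy
        · exact Or.inl rfl
        · exact h3 y hy
      · rw [List.sum_cons, List.sum_cons]; omega
    · refine ⟨r :: s :: l', ?_, ?_, ?_⟩
      · simp only [List.length_cons]; omega
      · intro y hy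
        rw [List.mem_cons, List.mem_cons] at hy
        rcases hy with rfl | rfl | hy
        · exact Or.inr hr
        · exact Or.inr hs
        · exact h3 y hy
      · simp only [List.sum_cons]; omega

/-- **additive basis** -/
theorem basis (hg : 1 ≤ g) (hf : Sys f) (δ : ℝ) (hδ : 0 < δ) (S : Set ℕ) (hS : ∀ n ∈ S, RoughS f δ n)
    (hM : Many g S) : ∃ k : ℕ, ∀ n : ℕ, ∃ l : List ℕ, l.length ≤ k ∧ (∀ r ∈ l, r = 1 ∨ r ∈ S) ∧ l.sum = n := by
  classical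
  obtain ⟨c, hc, hX⟩ := sums_dense f hg hf δ hδ S hS hM
  obtain ⟨x0, hx0⟩ := eventually_atTop.1 hX
  obtain ⟨SS, hSS⟩ : ∃ SS : ℕ → Prop, SS = fun n => n = 0 ∨ n = 1 ∨ ∃ a ∈ S, ∃ b ∈ S, 1 ≤ a ∧ 1 ≤ b ∧ a + b = n :=
    ⟨_, rfl⟩
  obtain ⟨d, hd⟩ : ∃ d : ℝ, d = min (min c (1 / ((x0 : ℝ) + 1))) 1 := ⟨_, rfl⟩
  have hd0 : 0 < d := by
    rw [hd]
    exact lt_min (lt_min hc (by positivity)) zero_lt_one
  have hd1 : d ≤ 1 := by rw [hd]; exact min_le_right _ _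
  have hdc : d ≤ c := by rw [hd]; exact (min_le_left _ _).trans (min_le_left _ _)
  have hdx : d ≤ 1 / ((x0 : ℝ) + 1) := by rw [hd]; exact (min_le_left _ _).trans (min_le_right _ _)
  have hcnt : ∀ n : ℕ, d * n ≤ Pool.Agent.W851.Had.cnt SS n := by
    intro n
    rcases Nat.eq_zero_or_pos n with h0 | h0
    · rw [h0]
      simp
    rcases le_total x0 n with h | h
    · have h1 := hx0 n h
      calc d * (n : ℝ) ≤ c * n := by gcongr
        _ ≤ _ := h1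
        _ ≤ _ := by
            rw [Nat.cast_le]
            unfold Pool.Agent.W851.Had.cnt
            rw [← Set.ncard_coe_finset]
            apply Set.ncard_le_ncard _ (Finset.finite_toSet _)
            rintro m ⟨h2, a, ha, b, hb, h3, h4, h5⟩
            rw [mem_coe, mem_filter, mem_Icc]
            refine ⟨⟨by omega, h2⟩, ?_⟩
            rw [hSS]
            exact Or.inr (Or.inr ⟨a, ha, b, hb, h3, h4, h5⟩)
    · have h1 : 1 ≤ Pool.Agent.W851.Had.cnt SS n := by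
        unfold Pool.Agent.W851.Had.cnt
        rw [Nat.succ_le_iff, card_pos]
        refine ⟨1, ?_⟩
        rw [mem_filter, mem_Icc]
        refine ⟨⟨le_rfl, h0⟩, ?_⟩
        rw [hSS]
        exact Or.inr (Or.inl rfl)
      have h2 : (1 : ℝ) ≤ Pool.Agent.W851.Had.cnt SS n := by exact_mod_cast h1
      refine le_trans ?_ h2
      have h3 : (n : ℝ) ≤ x0 := by exact_mod_cast h
      calc d * (n : ℝ) ≤ 1 / ((x0 : ℝ) + 1) * x0 := by gcongr
        _ ≤ 1 := by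
            rw [one_div, inv_mul_le_iff₀ (by positivity)]
            linarith
  obtain ⟨h, hh⟩ : ∃ h : ℕ, 1 / d ≤ h := exists_nat_ge (1 / d)
  have hdh : 1 ≤ d * h := by
    rw [div_le_iff₀ hd0] at hh
    linarith
  refine ⟨2 * (h + h), fun n => ?_⟩
  obtain ⟨l, hl1, hl2, hl3⟩ := Pool.Agent.W851.Had.schn SS n h d hd1 hdh (by rw [hSS]; exact Or.inl rfl)
    (fun m _ => hcnt m) n le_rfl
  obtain ⟨l', h1, h2, h3⟩ := collect S l (fun y hy => by
    have := hl2 y hy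
    rw [hSS] at this
    exact this)
  exact ⟨l', by rw [hl1] at h1; exact h1, h2, by rw [h3, hl3]⟩

end Pool.Agent.N481.GV
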